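import Pool.Agent.H925.RelInv.Core

/-!
# MP_f981b0_an: the invariant subspace problem relative to a `II_1` factor has a negative answer

There are a separable Hilbert space `H`, a `II_1` factor `M` on `H` and a quasinilpotent operator
`A ≠ 0` in `M` such that no closed subspace of `H` other than `0` and `H` is invariant under `A`
and under the commutant of `M`.

The proof is the unshipped development `Pool.Agent.H98R2.RR`, `Pool.Agent.H941R2.CM`,
`Pool.Agent.H728R2.Q77` of the starting repository; this file states what it proves for one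
operator, and passes from projections to subspaces.
-/

set_option autoImplicit false

open scoped InnerProductSpace

namespace Pool.Agent.Results.MP_f981b0_an.RelativeToFactor

variable {H : Type} [NormedAddCommGroup H] [InnerProductSpace ℂ H] [CompleteSpace H]

/-- The von Neumann algebra `M` is a factor: its centre consists of the scalars. -/
def IsFactor (M : VonNeumannAlgebra H) : Prop :=
  ∀ z ∈ M, (∀ x ∈ M, z * x = x * z) → ∃ c : ℂ, z = c • (1 : H →L[ℂ] H)

/-- The algebra `M` has infinite dimension. -/
def IsInfiniteDimensional (M : VonNeumannAlgebra H) : Prop :=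
  ¬ Module.Finite ℂ ↥(Subalgebra.toSubmodule M.toStarSubalgebra.toSubalgebra)

/-- `x ↦ ⟪ξ, x ξ⟫` is a faithful tracial state on `M`, given by the unit vector `ξ`. -/
structure IsTraceVector (M : VonNeumannAlgebra H) (ξ : H) : Prop where
  norm_one : ‖ξ‖ = 1
  trace : ∀ x ∈ M, ∀ y ∈ M, ⟪ξ, (x * y) ξ⟫_ℂ = ⟪ξ, (y * x) ξ⟫_ℂ
  faithful : ∀ x ∈ M, x ξ = 0 → x = 0

/-- `M` is a `II_1` factor, with trace given by the unit vector `ξ`. -/
structure IsTypeII1Factor (M : VonNeumannAlgebra H) (ξ : H) : Prop where
  factor : IsFactor M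
  infinite : IsInfiniteDimensional M
  trace : IsTraceVector M ξ

/-- `A` is quasinilpotent: its spectrum is `{0}`. -/
def IsQuasinilpotent (A : H →L[ℂ] H) : Prop := spectrum ℂ A = {0}

/-- All moments `⟪ξ, A ^ m ξ⟫`, `m ≥ 1`, vanish. -/
def ZeroMoments (ξ : H) (A : H →L[ℂ] H) : Prop := ∀ m : ℕ, 1 ≤ m → ⟪ξ, (A ^ m) ξ⟫_ℂ = 0

/-- The closed subspace `V` is invariant under `A` and under every operator in the commutant
of `M`. -/
structure IsRelativelyInvariant (M : VonNeumannAlgebra H) (A : H →L[ℂ] H) (V : Submodule ℂ H) :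
    Prop where
  closed : IsClosed (V : Set H)
  invariant : ∀ x ∈ V, A x ∈ V
  commutant : ∀ S ∈ M.commutant, ∀ x ∈ V, S x ∈ V

theorem countable_P : Countable Pool.Agent.H941R2.CM.P := by
  have h : ((Pool.Agent.H941R2.CM.P : Set Circle)).Countable := by
    have h1 : (Pool.Agent.H941R2.CM.P : Set Circle) ⊆
        ⋃ k : ℕ, {z : Circle | z ^ (2 ^ k) = 1} := by
      rintro z ⟨k, hk⟩
      exact Set.mem_iUnion.mpr ⟨k, hk⟩
    refine Set.Countable.mono h1 (Set.countable_iUnion fun k => ?_)
    have hfin : ({w : ℂ | w ^ (2 ^ k) = 1}).Finite := by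
      refine Set.Finite.subset (Polynomial.nthRootsFinset (2 ^ k) (1 : ℂ)).finite_toSet ?_
      intro w hw
      exact (Polynomial.mem_nthRootsFinset (by positivity) 1).mpr hw
    refine (Set.Finite.subset (hfin.preimage (f := fun z : Circle => (z : ℂ))
      (Circle.coe_injective.injOn)) ?_).countable
    intro z hz
    change ((z : ℂ)) ^ (2 ^ k) = 1
    have hz' : z ^ (2 ^ k) = 1 := hz
    rw [← Circle.coe_pow, hz', Circle.coe_one]
  exact h.to_subtype

theorem separable_Hs : TopologicalSpace.SeparableSpace Pool.Agent.H941R2.CM.Hs := by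
  haveI := countable_P
  haveI : Countable Pool.Agent.H941R2.CM.G := by
    change Countable (FreeGroup Bool)
    unfold FreeGroup
    exact Quot.mk_surjective.countable
  exact Pool.Agent.Helper741.GroupVN.separable_L2

/-- the orthogonal projection onto a closed subspace invariant under the commutant of `M` is
in `M` -/
theorem starProjection_mem (M : VonNeumannAlgebra H) (V : Submodule ℂ H)
    [V.HasOrthogonalProjection] (hV : ∀ S ∈ M.commutant, ∀ x ∈ V, S x ∈ V) :
    V.starProjection ∈ M := by
  have hp : IsStarProjection V.starProjection := isStarProjection_starProjection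
  have hmem : ∀ x, V.starProjection x ∈ V := by
    intro x
    have h2 : V.starProjection x ∈ V.starProjection.range := ⟨x, rfl⟩
    rwa [Submodule.range_starProjection] at h2
  have key : ∀ S ∈ M.commutant, S * V.starProjection =
      V.starProjection * S * V.starProjection := by
    intro S hS
    ext x
    change S (V.starProjection x) = V.starProjection (S (V.starProjection x))
    exact (Submodule.starProjection_eq_self_iff.mpr (hV S hS _ (hmem x))).symm
  rw [← VonNeumannAlgebra.commutant_commutant M, VonNeumannAlgebra.mem_commutant_iff]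
  intro S hS
  have h1 := key S hS
  have h2 := congrArg star (key (star S) (star_mem hS))
  simp only [star_mul, star_star, hp.isSelfAdjoint.star_eq] at h2
  rw [h1, mul_assoc, ← h2]

/-- **Theorem.** There are a separable Hilbert space `H`, an infinite-dimensional factor `M` on `H`
with a faithful tracial vector state (that is, a `II_1` factor), and a quasinilpotent operator
`A ≠ 0` in `M`, all of whose moments `τ (A ^ m)`, `m ≥ 1`, vanish, such that the only closed
subspaces of `H` which are invariant under `A` and under every operator of the commutant of `M` are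
`0` and `H`. -/
theorem result :
    ∃ (H : Type) (_ : NormedAddCommGroup H) (_ : InnerProductSpace ℂ H) (_ : CompleteSpace H)
      (M : VonNeumannAlgebra H) (ξ : H) (A : H →L[ℂ] H),
      TopologicalSpace.SeparableSpace H ∧ IsTypeII1Factor M ξ ∧
      A ∈ M ∧ A ≠ 0 ∧ IsQuasinilpotent A ∧ ZeroMoments ξ A ∧
      ∀ V : Submodule ℂ H, IsRelativelyInvariant M A V → V = ⊥ ∨ V = ⊤ := by
  classical
  obtain ⟨A, hA, hmom, hqn, hinv⟩ := Pool.Agent.H925.RelInv.exists_operator
    Pool.Agent.H941R2.CM.tower Pool.Agent.H941R2.CM.tower_gapc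
  obtain ⟨hfac, hinf⟩ := Pool.Agent.H98R2.RR.FAC _ _ _ Pool.Agent.H941R2.CM.tower
    Pool.Agent.H941R2.CM.tower_gapc
  obtain ⟨Q, hQM, hQ, hQ0, hQ1⟩ := Pool.Agent.H925.RelInv.exists_proj Pool.Agent.H941R2.CM.tower
  have hξ := Pool.Agent.H941R2.CM.norm_xi
  refine ⟨Pool.Agent.H941R2.CM.Hs, inferInstance, inferInstance, inferInstance,
    Pool.Agent.H941R2.CM.M, Pool.Agent.H941R2.CM.xi, A, ?_, ⟨hfac, hinf, ⟨hξ, ?_, ?_⟩⟩, hA, ?_, ?_,
    hmom, ?_⟩
  · exact separable_Hs
  · exact fun x hx y hy => Pool.Agent.H941R2.CM.tau_comm hx hy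
  · intro x hx h
    exact Pool.Agent.H941R2.CM.ext_M hx (zero_mem _) (by rw [h]; rfl)
  · intro h0
    rcases hinv Q hQM hQ (by rw [h0]; simp) with h | h
    · exact hQ0 h
    · exact hQ1 h
  · haveI : Nontrivial Pool.Agent.H941R2.CM.Hs := ⟨Pool.Agent.H941R2.CM.xi, 0, by
      intro h; rw [h, norm_zero] at hξ; exact zero_ne_one hξ⟩
    refine (Set.eq_singleton_iff_nonempty_unique_mem (s := spectrum ℂ A)).mpr ?_
    refine ⟨spectrum.nonempty A, fun μ hμ => ?_⟩
    rw [← norm_le_zero_iff]
    apply le_of_forall_pos_le_add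
    intro c hc
    rw [zero_add]
    obtain ⟨N, hN, hAN⟩ := hqn c hc
    have h1 : μ ^ N ∈ spectrum ℂ (A ^ N) := spectrum.pow_mem_pow A N hμ
    have h2 := spectrum.norm_le_norm_of_mem h1
    rw [norm_pow] at h2
    exact le_of_pow_le_pow_left₀ (by omega) hc.le (h2.trans hAN)
  · rintro V ⟨hV, hAV, hSV⟩
    haveI : CompleteSpace V := hV.completeSpace_coe
    have hPM : V.starProjection ∈ Pool.Agent.H941R2.CM.M := starProjection_mem _ V hSV
    rcases hinv V.starProjection hPM isStarProjection_starProjection (by
      refine ContinuousLinearMap.ext fun x => ?_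
      change A (V.starProjection x) = V.starProjection (A (V.starProjection x))
      have h1 : V.starProjection x ∈ V := by
        have h2 : V.starProjection x ∈ V.starProjection.range := ⟨x, rfl⟩
        rwa [Submodule.range_starProjection] at h2
      exact (Submodule.starProjection_eq_self_iff.mpr (hAV _ h1)).symm) with h | h
    · left
      rw [← Submodule.range_starProjection V, h]
      exact LinearMap.range_zero
    · right
      rw [← Submodule.range_starProjection V, h]
      exact LinearMap.range_eq_top.mpr fun x => ⟨x, rfl⟩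

end Pool.Agent.Results.MP_f981b0_an.RelativeToFactor
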