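import Pool.Agent.H751R2.GN.Final3

/-!
# MP_f981b0_an: typical elements with Brown measure zero of the hyperfinite II_1 factor

Let `M` be the hyperfinite II_1 factor in its standard representation (`HypData`), and let `QN D` be
the set of the contractions in `M` whose Brown measure is the point mass at `0`. With the 2-norm
metric the unit ball is complete, `QN D` is a Gδ in it and a Baire space, and its typical element
`T` (in the sense of Baire category) generates `M` as a von Neumann algebra and has a nest of
hyperinvariant projections `P t`, one of each trace `t` in `[0, 1]`, which generates a maximal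
abelian subalgebra of `M`.

Theorem, plan and parts of the proof: starting repository, helper files `H751R2/GN`, never handed
in there.
-/

set_option autoImplicit false
open Filter Topology

namespace Pool.Agent.Results.MP_f981b0_an.TypicalNestHyperfinite

open Pool.Agent.H751R2.GN

theorem result (H : Type) [NormedAddCommGroup H] [InnerProductSpace ℂ H] [CompleteSpace H]
    (D : HypData H) :
    CompleteSpace (Ball D) ∧ (∀ S T : Ball D, dist S T = 0 → S = T) ∧
    IsGδ (QN D) ∧ BaireSpace (QN D) ∧
    {T : QN D | MNest D T.1.1 ∧ ∀ S : H →L[ℂ] H, S * T.1.1 = T.1.1 * S →
      S * star T.1.1 = star T.1.1 * S → ∀ x ∈ D.M, S * x = x * S} ∈ residual (QN D) :=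
  p_MAINM H D

end Pool.Agent.Results.MP_f981b0_an.TypicalNestHyperfinite
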