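import Pool.Agent.H952R2.TQ.P.MAIN
import Pool.Agent.H952R2.TQ.P.INJ
import Pool.Agent.H952R2.TQ.P.ST
import Pool.Agent.H952R2.TQ.P.BLx
import Pool.Agent.H952R2.TQ.P.VCx
import Pool.Agent.H952R2.TQ.P.TR
import Pool.Agent.H952R2.TQ.P.F1x
import Pool.Agent.H952R2.TQ.P.F2
import Pool.Agent.H952R2.TQ.P.F3
import Pool.Agent.H952R2.TQ.P.CH
import Pool.Agent.H952R2.TQ.P.FR
import Pool.Agent.H952R2.TQ.P.EX0
import Pool.Agent.H952R2.TQ.P.OP
import Pool.Agent.H952R2.TQ.P.BA
import Pool.Agent.H952R2.TQ.P.LI0
import Pool.Agent.H952R2.TY.P.T5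

/-!
# MP_f981b0_an: typical stable quasinilpotent operators have hyperinvariant subspaces

Let `H` be a separable infinite-dimensional Hilbert space. `XQ H` is the set of the quasinilpotent
operators on `H` which are norm limits of operators unitarily equivalent to a direct sum of
countably many copies of one nilpotent operator. With the norm topology it is a Baire space, and
its typical element (in the sense of Baire category) is injective, has dense range and has a
nontrivial closed hyperinvariant subspace.

Paper proof and statements of the parts: helper952 (starting repository, never handed in). Formal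
proofs of the parts: helpers of the starting repository.
-/

set_option autoImplicit false
open Filter Topology
open scoped InnerProductSpace

namespace Pool.Agent.Results.MP_f981b0_an.TypicalQuasinilpotent

open Pool.Agent.H952R2 TQ

lemma st : S_ST := P.ST P.OP (P.BL P.F1 P.F2 P.F3 P.CH) (P.TR P.F2) (P.VC P.F2 P.FR P.EX0)

lemma bl : S_BL := P.BL P.F1 P.F2 P.F3 P.CH

lemma main : S_MAIN := P.MAIN TY.P.T5 st (P.S0 bl) P.OP P.BA P.LI0

lemma hilbertBasis_nat (H : Type) [NormedAddCommGroup H] [InnerProductSpace ℂ H] [CompleteSpace H]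
    [TopologicalSpace.SeparableSpace H] (hH : ¬ FiniteDimensional ℂ H) :
    Nonempty (HilbertBasis ℕ ℂ H) := by
  classical
  obtain ⟨w, b, -⟩ := exists_hilbertBasis ℂ H
  have ho := b.orthonormal
  have hc : Countable w := by
    apply Pairwise.countable_of_isOpen_disjoint (s := fun i : w => Metric.ball (b i) (1 / 2))
    · intro i j hij
      apply Metric.ball_disjoint_ball
      have h1 : ‖b i - b j‖ * ‖b i - b j‖ = 2 := by
        have h0 : ⟪b i, b j⟫_ℂ = 0 := ho.2 hij
        have := @norm_sub_mul_self ℂ H _ _ _ (b i) (b j)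
        rw [this, h0, ho.1 i, ho.1 j]
        norm_num
      rw [dist_eq_norm]
      nlinarith [norm_nonneg (b i - b j)]
    · intro i
      exact Metric.isOpen_ball
    · intro i
      exact ⟨b i, Metric.mem_ball_self (by norm_num)⟩
  have hi : Infinite w := by
    by_contra h
    rw [not_infinite_iff_finite] at h
    apply hH
    have := Fintype.ofFinite w
    exact Module.Finite.of_basis b.toOrthonormalBasis.toBasis
  obtain ⟨hd⟩ := nonempty_denumerable w
  let e : ℕ ≃ w := (Denumerable.eqv w).symm
  have hv : Orthonormal ℂ (fun k : ℕ => b (e k)) := ho.comp e e.injective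
  have hr : Set.range (fun k => b (e k)) = Set.range b := by
    ext x
    constructor
    · rintro ⟨k, rfl⟩; exact ⟨e k, rfl⟩
    · rintro ⟨i, rfl⟩; exact ⟨e.symm i, by simp⟩
  exact ⟨HilbertBasis.mk hv (by rw [hr, b.dense_span])⟩

lemma frame_basis {H : Type} [NormedAddCommGroup H] [InnerProductSpace ℂ H] [CompleteSpace H]
    (b : HilbertBasis ℕ ℂ H) :
    Frame (fun i => ContinuousLinearMap.toSpanSingleton ℂ (b i)) := by
  classical
  have hadj : ∀ i (x : H), ContinuousLinearMap.adjoint
      (ContinuousLinearMap.toSpanSingleton ℂ (b i)) x = ⟪b i, x⟫_ℂ := by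
    intro i x
    refine ext_inner_left ℂ fun c => ?_
    rw [ContinuousLinearMap.adjoint_inner_right, ContinuousLinearMap.toSpanSingleton_apply,
      inner_smul_left]
    simp [mul_comm]
  have ho := orthonormal_iff_ite.mp b.orthonormal
  refine ⟨?_, ?_, ?_⟩
  · intro i
    ext
    simp [hadj, b.orthonormal.1 i]
  · intro i j hij
    ext
    simp [hadj, ho, hij]
  · intro x
    have h := b.hasSum_repr x
    have e : (fun i => b.repr x i • b i) = fun i => ContinuousLinearMap.toSpanSingleton ℂ (b i)
        (ContinuousLinearMap.adjoint (ContinuousLinearMap.toSpanSingleton ℂ (b i)) x) := by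
      funext i
      rw [hadj, ContinuousLinearMap.toSpanSingleton_apply, b.repr_apply_apply]
    rw [e] at h
    exact h

/-- A separable infinite-dimensional Hilbert space is the sum of countably many copies of `ℂ`. -/
lemma ampN_zero (H : Type) [NormedAddCommGroup H] [InnerProductSpace ℂ H] [CompleteSpace H]
    [TopologicalSpace.SeparableSpace H] (hH : ¬ FiniteDimensional ℂ H) :
    AmpN (0 : H →L[ℂ] H) := by
  obtain ⟨b⟩ := hilbertBasis_nat H hH
  exact ⟨ℂ, inferInstance, inferInstance, inferInstance,
    fun i => ContinuousLinearMap.toSpanSingleton ℂ (b i), 0, 1, frame_basis b, pow_one _,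
    fun i => by simp⟩

/-- **Typical stable quasinilpotent operators have nontrivial hyperinvariant subspaces.** -/
theorem result (H : Type) [NormedAddCommGroup H] [InnerProductSpace ℂ H] [CompleteSpace H]
    [TopologicalSpace.SeparableSpace H] (hH : ¬ FiniteDimensional ℂ H) :
    (XQ H).Nonempty ∧ BaireSpace (XQ H) ∧
    {T : XQ H | (∀ v, (T : H →L[ℂ] H) v = 0 → v = 0) ∧ DenseRange (T : H →L[ℂ] H) ∧
      ∃ E : Submodule ℂ H, IsClosed (E : Set H) ∧ E ≠ ⊥ ∧ E ≠ ⊤ ∧
        ∀ S : H →L[ℂ] H, S ∘L (T : H →L[ℂ] H) = (T : H →L[ℂ] H) ∘L S → ∀ v ∈ E, S v ∈ E} ∈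
      residual (XQ H) := by
  have hne : ∃ v : H, v ≠ 0 := by
    by_contra h
    push Not at h
    apply hH
    have : Subsingleton H := ⟨fun a b => by rw [h a, h b]⟩
    infer_instance
  obtain ⟨h1, h2⟩ := main H hne
  refine ⟨⟨0, P.ampN_XQ (ampN_zero H hH)⟩, h1, ?_⟩
  filter_upwards [h2, P.INJ bl P.F2 H] with T hT hT'
  exact ⟨hT'.1, hT'.2, hT⟩

end Pool.Agent.Results.MP_f981b0_an.TypicalQuasinilpotent
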